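import Pool.Agent.Y966.CC.Intv

/-!
The number of the pairs, triples, ... of integers in an interval whose trajectories under the `3x+1`
map (or the `5x+1` map) coincide after `k` steps.
-/

set_option autoImplicit false

namespace Pool.Agent.Results.MP_ff4775_nt.CoalescenceMoments

/-- The map `x / 2` for even `x`, `(p x + 1) / 2` for odd `x` on the integers. -/
def T (p : ℕ) (x : ℤ) : ℤ := if x % 2 = 0 then x / 2 else (p * x + 1) / 2

/-- The `q`-tuples of integers in the interval `(m, m + 2 ^ k]` whose trajectories are at the same point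
after `k` steps: `T^(k)(f 0) = ... = T^(k)(f (q - 1))`. -/
def Coalescing (p q k : ℕ) (m : ℤ) : Set (Fin q → ℤ) :=
  {f | (∀ i, m < f i ∧ f i ≤ m + 2 ^ k) ∧ ∀ i j, (T p)^[k] (f i) = (T p)^[k] (f j)}

/-- Let `p = 3` or `p = 5`, `q ≥ 2` and `ε > 0`. For all large `k` and every integer `m` the number of
the `q`-tuples of integers in `(m, m + 2 ^ k]` with the same `k`-th iterate is finite and lies between
`exp (- ε k) (1 + p ^ (1/q - 1)) ^ (q k)` and `exp (ε k) (1 + p ^ (1/q - 1)) ^ (q k)`. -/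
theorem result (p : ℕ) (hp : p = 3 ∨ p = 5) (q : ℕ) (hq : 2 ≤ q) (ε : ℝ) (hε : 0 < ε) :
    ∃ k₀ : ℕ, ∀ k : ℕ, k₀ ≤ k → ∀ m : ℤ, (Coalescing p q k m).Finite ∧
      Real.exp (-(ε * k)) * (1 + (p : ℝ) ^ (1 / (q : ℝ) - 1)) ^ (q * k) ≤
        ((Coalescing p q k m).ncard : ℝ) ∧
      ((Coalescing p q k m).ncard : ℝ) ≤
        Real.exp (ε * k) * (1 + (p : ℝ) ^ (1 / (q : ℝ) - 1)) ^ (q * k) := by
  obtain ⟨k₀, hk₀⟩ := Pool.Agent.Y966.CC.totalI hp hq hε
  refine ⟨k₀, fun k hk m => ?_⟩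
  obtain ⟨h1, h2⟩ := Pool.Agent.Y966.CC.tuples (p := p) q k (by omega) m
  obtain ⟨h3, h4⟩ := hk₀ k hk m
  have e : Pool.Agent.Y966.CC.ss p q = (p : ℝ) ^ (1 / (q : ℝ) - 1) := by
    unfold Pool.Agent.Y966.CC.ss
    congr 1
    ring
  rw [e, ← h2] at h3 h4
  exact ⟨h1, h3, h4⟩

end Pool.Agent.Results.MP_ff4775_nt.CoalescenceMoments
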