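import Pool.Agent.Y966.UB.Img

/-!
# Images of intervals under the iterates of the `3x+1` map, and least preimages

The number of the values of `T^k` on `N ≥ 2^k` consecutive integers is `N exp(-(1/γ + o(1)) k)`, where
`γ = 41.677...` is the constant of Lagarias and Weiss; and every integer `a` prime to `3` has a `k`-th
preimage of size at most `|a| exp((1/γ + o(1)) k)`, which is best possible for almost all `a`.
-/

set_option autoImplicit false

namespace Pool.Agent.Results.MP_ff4775_nt.ImagesOfIntervals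

/-- The `3x+1` map on the integers. -/
def T (n : ℤ) : ℤ := if n % 2 = 0 then n / 2 else (3 * n + 1) / 2

/-- The values of `T^k` on the integers in `(m, m + N]`. -/
def Image (k : ℕ) (m : ℤ) (N : ℕ) : Set ℤ := T^[k] '' Set.Ioc m (m + N)

/-- The integers `a` with `|a| ≤ A` which are `k`-th iterates of an integer `n` with `|n| ≤ X`. -/
def Reached (k : ℕ) (A X : ℝ) : Set ℤ :=
  {a : ℤ | |(a : ℝ)| ≤ A ∧ ∃ n : ℤ, |(n : ℝ)| ≤ X ∧ T^[k] n = a}

section

open Pool.Agent.H395R2.G3 Pool.Agent.Y966.LD Pool.Agent.Y966.UB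

/-- the constant -/
theorem exists_const : ∃ ρ γ : ℝ, 1 / 2 < ρ ∧ ρ < 1 ∧ Real.binEntropy ρ = ρ * Real.log 3 ∧
    1 / γ = Real.log 2 - ρ * Real.log 3 ∧ 41.6776 < γ ∧ γ < 41.6777 := by
  have hl2 : 0 < Real.log 2 := Real.log_pos (by norm_num)
  have hl3 : 0 < Real.log 3 := Real.log_pos (by norm_num)
  have l2a := Real.log_two_gt_d9
  have l2b := Real.log_two_lt_d9
  have l3a := Real.log_three_gt_d9
  have l3b := Real.log_three_lt_d9
  have hivt := intermediate_value_Icc' (show (4771 / 7833 : ℝ) ≤ 4905 / 8053 by norm_num)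
    FF_cont.continuousOn
  obtain ⟨r₀, ⟨hr1, hr2⟩, hr0⟩ := hivt (show (0 : ℝ) ∈ Set.Icc _ _ from ⟨FF_high.le, FF_low.le⟩)
  have h1 : r₀ * Real.log 3 ≤ 4905 / 8053 * Real.log 3 := mul_le_mul_of_nonneg_right hr2 hl3.le
  have h2 : 4771 / 7833 * Real.log 3 ≤ r₀ * Real.log 3 := mul_le_mul_of_nonneg_right hr1 hl3.le
  have hD : 0 < Real.log 2 - r₀ * Real.log 3 := by
    norm_num at *
    linarith
  refine ⟨r₀, 1 / (Real.log 2 - r₀ * Real.log 3), ?_, ?_, ?_, by rw [one_div_one_div], ?_, ?_⟩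
  · norm_num at *
    linarith
  · norm_num at *
    linarith
  · have : FF r₀ = Real.binEntropy r₀ - r₀ * Real.log 3 := rfl
    rw [this] at hr0
    linarith
  · rw [lt_div_iff₀ hD]
    norm_num at *
    nlinarith
  · rw [div_lt_iff₀ hD]
    norm_num at *
    nlinarith

theorem T_eq : T = TZ := rfl

end

/-- With `ρ` the root of `H(ρ) = ρ log 3` (`H` the binary entropy) and `1/γ = log 2 - ρ log 3`:
(1) `T^k` has at most `8 N exp(-k/γ)` values on `N ≥ 2^k` consecutive integers; (2) for every `ε > 0`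
and all large `k`, every integer `a` prime to `3` is `T^k(n)` for an integer `n` of the same sign with
`|n| ≤ |a| exp((1/γ + ε) k)`; (3) this is best possible: for `0 < ε ≤ 1/γ` and `A ≥ 2^k` at most
`24 A exp(-ε k)` of the integers `a` with `|a| ≤ A` are `T^k(n)` with `|n| ≤ A exp((1/γ - ε) k)`. -/
theorem result : ∃ ρ γ : ℝ, 1 / 2 < ρ ∧ ρ < 1 ∧ Real.binEntropy ρ = ρ * Real.log 3 ∧
    1 / γ = Real.log 2 - ρ * Real.log 3 ∧ 41.6776 < γ ∧ γ < 41.6777 ∧
    (∀ (k N : ℕ) (m : ℤ), 2 ^ k ≤ N →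
      ((Image k m N).ncard : ℝ) ≤ 8 * N * Real.exp (-(k / γ))) ∧
    (∀ ε : ℝ, 0 < ε → ∃ k₀ : ℕ, ∀ k : ℕ, k₀ ≤ k → ∀ a : ℤ, ¬ 3 ∣ a →
      ∃ n : ℤ, T^[k] n = a ∧ 0 < n * a ∧
        |(n : ℝ)| ≤ |(a : ℝ)| * Real.exp ((1 / γ + ε) * k)) ∧
    (∀ ε : ℝ, 0 < ε → ε ≤ 1 / γ → ∀ (k : ℕ) (A : ℝ), 2 ^ k ≤ A →
      ((Reached k A (A * Real.exp ((1 / γ - ε) * k))).ncard : ℝ) ≤
        24 * A * Real.exp (-(ε * k))) := by
  open Pool.Agent.H395R2.G3 Pool.Agent.Y966.LD Pool.Agent.Y966.UB in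
  obtain ⟨ρ, γ, h0, h1, h2, h3, h4, h5⟩ := exists_const
  have hl3 : 0 < Real.log 3 := Real.log_pos (by norm_num)
  have hγ : 0 < γ := by linarith
  have hFρ : 0 ≤ FF ρ := by
    have : FF ρ = Real.binEntropy ρ - ρ * Real.log 3 := rfl
    rw [this, h2, sub_self]
  have hup : ∀ (k N : ℕ) (m : ℤ), 2 ^ k ≤ N →
      ((Image k m N).ncard : ℝ) ≤ 8 * N * Real.exp (-(k / γ)) := by
    intro k N m hN
    have h := image_Ioc h0 h1 h2 k N hN m
    have e : (k : ℝ) / γ = (Real.log 2 - ρ * Real.log 3) * k := by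
      rw [← h3]
      ring
    rw [e]
    exact h
  refine ⟨ρ, γ, h0, h1, h2, h3, h4, h5, hup, ?_, ?_⟩
  · intro ε hε
    -- a slope slightly below `ρ`
    set r : ℝ := max (ρ - ε / (2 * Real.log 3)) (1 / 4) with hr
    have hr1 : r < ρ := max_lt (by
      have : 0 < ε / (2 * Real.log 3) := by positivity
      linarith) (by linarith)
    have hr0 : 0 < r := lt_of_lt_of_le (by norm_num) (le_max_right _ _)
    have hr2 : (ρ - r) * Real.log 3 ≤ ε / 2 := by
      have h6 : ρ - r ≤ ε / (2 * Real.log 3) := by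
        have := le_max_left (ρ - ε / (2 * Real.log 3)) (1 / 4)
        linarith
      have h7 := mul_le_mul_of_nonneg_right h6 hl3.le
      have h8 : ε / (2 * Real.log 3) * Real.log 3 = ε / 2 := by
        field_simp
      linarith
    have hD : 0 < Real.log 2 - ρ * Real.log 3 := by
      rw [← h3]
      positivity
    obtain ⟨k₀, hk₀⟩ := small_preimage hr0 (hr1.trans h1)
      (FF_pos_of hr0 hr1 h1.le hFρ) (by
        have := mul_le_mul_of_nonneg_right hr1.le hl3.le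
        linarith) (show 0 < ε / 2 by positivity)
    refine ⟨k₀, fun k hk a ha => ?_⟩
    obtain ⟨n, n1, n2, n3⟩ := hk₀ k hk a ha
    refine ⟨n, n1, n2, n3.trans ?_⟩
    apply mul_le_mul_of_nonneg_left _ (abs_nonneg _)
    apply Real.exp_le_exp.2
    apply mul_le_mul_of_nonneg_right _ (Nat.cast_nonneg _)
    rw [h3]
    linarith
  · intro ε hε hεγ k A hA
    set X : ℝ := A * Real.exp ((1 / γ - ε) * k) with hX
    have hk0 : (0 : ℝ) ≤ k := Nat.cast_nonneg _
    have h2k : (1 : ℝ) ≤ 2 ^ k := one_le_pow₀ (by norm_num)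
    have hA1 : 1 ≤ A := h2k.trans hA
    have hE1 : 1 ≤ Real.exp ((1 / γ - ε) * k) := by
      apply Real.one_le_exp
      have : 0 ≤ 1 / γ - ε := by linarith
      positivity
    have hAX : A ≤ X := by
      rw [hX]
      nlinarith
    have hX1 : 1 ≤ X := hA1.trans hAX
    -- the interval
    set N : ℕ := 2 * ⌊X⌋₊ + 1 with hN
    have hfl : (⌊X⌋₊ : ℝ) ≤ X := Nat.floor_le (by linarith)
    have hfl2 : X < ⌊X⌋₊ + 1 := Nat.lt_floor_add_one _
    have hNX : (N : ℝ) ≤ 3 * X := by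
      rw [hN]
      push_cast
      linarith
    have hNk : 2 ^ k ≤ N := by
      have h6 : (2 : ℝ) ^ k ≤ X := hA.trans hAX
      have h7 : 2 ^ k ≤ ⌊X⌋₊ := Nat.le_floor (by exact_mod_cast h6)
      omega
    have hsub : Reached k A X ⊆ Image k (-(⌊X⌋₊ : ℤ) - 1) N := by
      rintro a ⟨_, n, hn, rfl⟩
      refine ⟨n, ?_, rfl⟩
      obtain ⟨n1, n2⟩ := abs_le.1 hn
      have h8 : n ≤ (⌊X⌋₊ : ℤ) := by
        have h9 : n ≤ ⌊X⌋ := Int.le_floor.2 n2
        have h10 : ((⌊X⌋₊ : ℕ) : ℤ) = ⌊X⌋ := Int.natCast_floor_eq_floor (by linarith)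
        omega
      have h8' : -n ≤ (⌊X⌋₊ : ℤ) := by
        have h9 : -n ≤ ⌊X⌋ := Int.le_floor.2 (by push_cast; linarith)
        have h10 : ((⌊X⌋₊ : ℕ) : ℤ) = ⌊X⌋ := Int.natCast_floor_eq_floor (by linarith)
        omega
      rw [Set.mem_Ioc, hN]
      push_cast
      omega
    have hfin : (Image k (-(⌊X⌋₊ : ℤ) - 1) N).Finite := (Set.finite_Ioc _ _).image _
    have h11 : ((Reached k A X).ncard : ℝ) ≤ ((Image k (-(⌊X⌋₊ : ℤ) - 1) N).ncard : ℝ) := by
      exact_mod_cast Set.ncard_le_ncard hsub hfin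
    refine h11.trans ((hup k N _ hNk).trans ?_)
    calc 8 * (N : ℝ) * Real.exp (-(k / γ)) ≤ 8 * (3 * X) * Real.exp (-(k / γ)) := by
          apply mul_le_mul_of_nonneg_right _ (Real.exp_pos _).le
          linarith
      _ = 24 * A * (Real.exp ((1 / γ - ε) * k) * Real.exp (-(k / γ))) := by
          rw [hX]
          ring
      _ = 24 * A * Real.exp (-(ε * k)) := by
          rw [← Real.exp_add]
          congr 2
          field_simp
          ring

end Pool.Agent.Results.MP_ff4775_nt.ImagesOfIntervals
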