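import Mathlib
import Pool.Agent.H499R2.NDClass2
import Pool.Agent.Y964.SE.Top
import Pool.Agent.Y964.SE.Ex

set_option autoImplicit false

/-!
Sets invariant under the Collatz map, along sparse multiplicative sets and multiplicative functions.

The sets `E` here have density zero (like the sums of two squares, `E(N) ~ K N / √(log N)`, or the
integers composed of primes from a set of positive relative density). All errors are relative to the
number of elements of `E`, respectively to the sum of the absolute values of the multiplicative function.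
-/

namespace Pool.Agent.Results.MP_ff4775_nt.MultiplicativeSets

open Filter Topology Finset

/-- The accelerated Collatz map on the integers. -/
def T (x : ℤ) : ℤ := if x % 2 = 0 then x / 2 else (3 * x + 1) / 2

/-- The trajectory of `x` is divergent. -/
def Divergent (x : ℤ) : Prop := Tendsto (fun k : ℕ => |T^[k] x|) atTop atTop

/-- `S` is invariant under the map `T` and its inverse. -/
def Invariant (S : Set ℤ) : Prop := ∀ x : ℤ, x ∈ S ↔ T x ∈ S

/-- Among the integers of sign `s` the set `S` has natural density `δ`. -/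
def HasDensity (s : ℤ) (S : Set ℤ) (δ : ℝ) : Prop :=
  Tendsto (fun N : ℕ => ({n : ℤ | 0 < s * n ∧ s * n ≤ N ∧ n ∈ S}.ncard : ℝ) / N) atTop (𝓝 δ)

/-- `∑_{p ≤ x} h p ≥ c x / log x` for all `x ≥ x₀` (sum over primes). -/
def PrimeMean (c : ℝ) (x₀ : ℕ) (h : ℕ → ℝ) : Prop :=
  ∀ x : ℕ, x₀ ≤ x → c * (x / Real.log x) ≤ ∑ p ∈ (Icc 1 x).filter Nat.Prime, h p

/-- `E` contains at least `c x / log x` primes `p ≤ x`, for all `x ≥ x₀`. -/
def ManyPrimes (c : ℝ) (x₀ : ℕ) (E : Set ℕ) : Prop :=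
  ∀ x : ℕ, x₀ ≤ x → c * (x / Real.log x) ≤ {p : ℕ | p.Prime ∧ p ≤ x ∧ p ∈ E}.ncard

/-- `E` is a multiplicative set of positive integers: it contains `1`, and the product of coprime
integers is in `E` if and only if both factors are. -/
def MultSet (E : Set ℕ) : Prop :=
  0 ∉ E ∧ 1 ∈ E ∧ ∀ m n : ℕ, m.Coprime n → (m * n ∈ E ↔ m ∈ E ∧ n ∈ E)

/-- The number of the `n ≤ N` in `E` with `s n ∈ S`. -/
noncomputable def Count (s : ℤ) (S : Set ℤ) (E : Set ℕ) (N : ℕ) : ℕ :=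
  {n : ℕ | n ≤ N ∧ n ∈ E ∧ s * n ∈ S}.ncard

/-- The positive sums of two squares. -/
def TwoSquares : Set ℕ := {n | 1 ≤ n ∧ ∃ x y : ℕ, n = x ^ 2 + y ^ 2}

/-- The positive integers all of whose prime factors are congruent modulo `q` to elements of `A`. -/
def PrimesIn (q : ℕ) (A : Set ℕ) : Set ℕ := {n | 1 ≤ n ∧ ∀ p : ℕ, p.Prime → p ∣ n → ∃ a ∈ A, p % q = a % q}

open Pool.Agent.H499R2.ND Pool.Agent.H320R2.PD Pool.Agent.W41 Pool.Agent.W41.FU Pool.Agent.Y964.SE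
open scoped Classical

theorem dinv : Invariant {x | Divergent x} := by
  intro x
  simp only [Set.mem_ofPred_eq]
  unfold Divergent
  rw [← tendsto_add_atTop_iff_nat (f := fun k : ℕ => |T^[k] x|) 1]
  simp only [Function.iterate_succ_apply]

theorem HD_of {s : ℤ} (hs : s = 1 ∨ s = -1) {S : Set ℤ} (hS : Invariant S) {δ : ℝ}
    (h : HasDensity s S δ) : HD s S δ := by
  obtain ⟨δ', _, _, hδ'⟩ := dens_side odd_one isCoprime_one_left hs (S := S) hS
  have h1 : HasDensity s S δ' := HD_ncard hs hδ'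
  rw [tendsto_nhds_unique h h1]
  exact hδ'

theorem hyp_of {c : ℝ} {x₀ : ℕ} {h : ℕ → ℝ} (H : PrimeMean c x₀ h) : HypD c x₀ h := by
  intro x hx
  refine (H x hx).trans (le_of_eq ?_)
  apply sum_congr _ (fun _ _ => rfl)
  ext p
  rw [mem_filter, mem_Icc, mem_PN]
  constructor
  · rintro ⟨h1, h2⟩; exact ⟨h1.2, h2⟩
  · rintro ⟨h1, h2⟩; exact ⟨⟨h2.one_lt.le, h1⟩, h2⟩

theorem sum_eq {s : ℤ} (S : Set ℤ) (δ : ℝ) (g : ℕ → ℂ) (N : ℕ) :
    ∑ n ∈ Icc 1 N, (bal s S δ ((n : ℕ) : ℤ) : ℂ) * g n =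
      ∑ n ∈ (Icc 1 N).filter (fun n : ℕ => s * (n : ℤ) ∈ S), g n - δ * ∑ n ∈ Icc 1 N, g n := by
  rw [sum_filter, mul_sum, ← sum_sub_distrib]
  apply sum_congr rfl
  intro n _
  unfold bal ind
  push_cast
  split_ifs <;> simp [sub_mul]

theorem part1 {s : ℤ} (hs : s = 1 ∨ s = -1) (c : ℝ) (hc : 0 < c) (x₀ : ℕ) (ε : ℝ) (hε : 0 < ε) : ∃ N₀ : ℕ,
    ∀ N : ℕ, N₀ ≤ N → ∀ (S : Set ℤ) (δ : ℝ), Invariant S → HasDensity s S δ →
    ∀ h : ArithmeticFunction ℝ, h.IsMultiplicative → (∀ n, 0 ≤ h n ∧ h n ≤ 1) → PrimeMean c x₀ h →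
    ∀ g : ArithmeticFunction ℂ, g.IsMultiplicative → (∀ n, ‖g n‖ ≤ h n) →
    ‖∑ n ∈ (Icc 1 N).filter (fun n : ℕ => s * (n : ℤ) ∈ S), g n - δ * ∑ n ∈ Icc 1 N, g n‖ ≤
      ε * ∑ n ∈ Icc 1 N, h n := by
  obtain ⟨N0, h0⟩ := main_h hs hc x₀ hε
  refine ⟨N0, fun N hN S δ hS hδ h hm h01 hp g hgm hg => ?_⟩
  rw [← sum_eq]
  exact h0 N hN S hS δ (HD_of hs hS hδ) h (fun n => (h01 n).1) (fun n => (h01 n).2) hm.1
    (fun m n hmn => hm.2 hmn) (hyp_of hp) g hg (fun m n hmn => hgm.2 hmn)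

theorem count_eq {s : ℤ} (S : Set ℤ) {E : Set ℕ} (hE : 0 ∉ E) (N : ℕ) :
    (Count s S E N : ℝ) = ∑ n ∈ (Icc 1 N).filter (fun n : ℕ => s * (n : ℤ) ∈ S), if n ∈ E then (1 : ℝ) else 0 := by
  have e : {n : ℕ | n ≤ N ∧ n ∈ E ∧ s * n ∈ S} =
      (((Icc 1 N).filter (fun n : ℕ => s * (n : ℤ) ∈ S)).filter (fun n => n ∈ E) : Finset ℕ) := by
    ext n
    rw [mem_coe, mem_filter, mem_filter, mem_Icc]
    simp only [Set.mem_ofPred_eq]
    constructor
    · rintro ⟨h1, h2, h3⟩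
      refine ⟨⟨⟨?_, h1⟩, h3⟩, h2⟩
      rcases Nat.eq_zero_or_pos n with h | h
      · rw [h] at h2; exact absurd h2 hE
      · exact h
    · rintro ⟨⟨⟨_, h1⟩, h3⟩, h2⟩; exact ⟨h1, h2, h3⟩
  unfold Count
  rw [e, Set.ncard_coe_finset, card_filter]
  push_cast
  rfl

theorem part2 {s : ℤ} (hs : s = 1 ∨ s = -1) (c : ℝ) (hc : 0 < c) (x₀ : ℕ) (ε : ℝ) (hε : 0 < ε) : ∃ N₀ : ℕ,
    ∀ N : ℕ, N₀ ≤ N → ∀ (S : Set ℤ) (δ : ℝ), Invariant S → HasDensity s S δ →
    ∀ E : Set ℕ, MultSet E → ManyPrimes c x₀ E →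
    |(Count s S E N : ℝ) - δ * Count s Set.univ E N| ≤ ε * Count s Set.univ E N := by
  obtain ⟨N0, h0⟩ := main_h hs hc x₀ hε
  refine ⟨N0, fun N hN S δ hS hδ E hE hp => ?_⟩
  set h : ℕ → ℝ := fun n => if n ∈ E then 1 else 0 with hh
  have hmul : ∀ m n : ℕ, Nat.Coprime m n → h (m * n) = h m * h n := by
    intro m n hmn
    simp only [hh]
    have h1 := hE.2.2 m n hmn
    by_cases hm : m ∈ E
    · by_cases hn : n ∈ E
      · rw [if_pos (h1.2 ⟨hm, hn⟩), if_pos hm, if_pos hn, mul_one]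
      · rw [if_neg (fun h2 => hn (h1.1 h2).2), if_neg hn, mul_zero]
    · rw [if_neg (fun h2 => hm (h1.1 h2).1), if_neg hm, zero_mul]
  have hyp : HypD c x₀ h := by
    apply hyp_of
    intro x hx
    refine (hp x hx).trans (le_of_eq ?_)
    have e : {p : ℕ | p.Prime ∧ p ≤ x ∧ p ∈ E} = (((Icc 1 x).filter Nat.Prime).filter (fun p => p ∈ E) : Finset ℕ) := by
      ext p
      rw [mem_coe, mem_filter, mem_filter, mem_Icc]
      simp only [Set.mem_ofPred_eq]
      constructor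
      · rintro ⟨h1, h2, h3⟩; exact ⟨⟨⟨h1.one_lt.le, h2⟩, h1⟩, h3⟩
      · rintro ⟨⟨⟨_, h2⟩, h1⟩, h3⟩; exact ⟨h1, h2, h3⟩
    rw [e, Set.ncard_coe_finset, card_filter]
    push_cast
    rfl
  have h1 := h0 N hN S hS δ (HD_of hs hS hδ) h (fun n => by simp only [hh]; split_ifs <;> norm_num)
    (fun n => by simp only [hh]; split_ifs <;> norm_num) (by simp only [hh]; rw [if_pos hE.2.1]) hmul hyp
    (fun n => (h n : ℂ)) (fun n => by
      rw [Complex.norm_real, Real.norm_eq_abs, abs_of_nonneg]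
      simp only [hh]; split_ifs <;> norm_num) (fun m n hmn => by rw [hmul m n hmn]; push_cast; rfl)
  rw [sum_eq] at h1
  have e1 := count_eq (s := s) S hE.1 N
  have e2 : (Count s Set.univ E N : ℝ) = ∑ n ∈ Icc 1 N, if n ∈ E then (1 : ℝ) else 0 := by
    rw [count_eq (s := s) Set.univ hE.1 N]
    apply sum_congr _ (fun _ _ => rfl)
    ext n
    simp
  have e4 : ∑ n ∈ (Icc 1 N).filter (fun n : ℕ => s * (n : ℤ) ∈ S), (h n : ℂ) - δ * ∑ n ∈ Icc 1 N, (h n : ℂ) =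
      (((Count s S E N : ℝ) - δ * Count s Set.univ E N : ℝ) : ℂ) := by
    rw [e1, e2]
    push_cast
    rfl
  rw [e4, Complex.norm_real, Real.norm_eq_abs] at h1
  rw [e2] at h1 ⊢
  exact h1

theorem many_of {E : Set ℕ} {q a : ℕ} (hq : 1 ≤ q) (ha : a.Coprime q)
    (h : ∀ p : ℕ, p.Prime → p % q = a % q → p ∈ E) : ∃ c : ℝ, 0 < c ∧ ∃ x₀ : ℕ, ManyPrimes c x₀ E := by
  obtain ⟨c, hc, x0, h1⟩ := thick_ap hq ha
  refine ⟨c, hc, x0, fun x hx => (h1 x hx).trans ?_⟩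
  have hfin : {p : ℕ | p.Prime ∧ p ≤ x ∧ p ∈ E}.Finite :=
    (Set.finite_le_nat x).subset fun p hp => hp.2.1
  rw [← Set.ncard_coe_finset]
  apply Nat.cast_le.2
  apply Set.ncard_le_ncard _ hfin
  intro p hp
  rw [mem_coe, mem_filter, mem_Icc] at hp
  exact ⟨hp.2.1, hp.1.2, h p hp.2.1 hp.2.2⟩

theorem two_sq : MultSet TwoSquares ∧ ∃ c : ℝ, 0 < c ∧ ∃ x₀ : ℕ, ManyPrimes c x₀ TwoSquares := by
  refine ⟨⟨fun h => by have := h.1; omega, ⟨le_rfl, 1, 0, by norm_num⟩, fun m n hmn => ?_⟩, ?_⟩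
  · by_cases h0 : m * n = 0
    · constructor
      · intro h
        have := h.1
        omega
      · rintro ⟨h1, h2⟩
        have := Nat.mul_pos h1.1 h2.1
        omega
    · have hm0 : m ≠ 0 := left_ne_zero_of_mul h0
      have hn0 : n ≠ 0 := right_ne_zero_of_mul h0
      have h1 := two_sq_mul hmn h0
      constructor
      · rintro ⟨_, h2⟩
        exact ⟨⟨by omega, (h1.1 h2).1⟩, by omega, (h1.1 h2).2⟩
      · rintro ⟨⟨_, h2⟩, _, h3⟩
        exact ⟨by omega, h1.2 ⟨h2, h3⟩⟩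
  · apply many_of (q := 4) (a := 1) (by norm_num) (by norm_num)
    intro p hp h1
    have : Fact p.Prime := ⟨hp⟩
    obtain ⟨a, b, hab⟩ := Nat.Prime.sq_add_sq (p := p) (by omega)
    exact ⟨hp.one_lt.le, a, b, hab.symm⟩

theorem primes_in {q : ℕ} (hq : 1 ≤ q) {A : Set ℕ} {a : ℕ} (haA : a ∈ A) (ha : a.Coprime q) :
    MultSet (PrimesIn q A) ∧ ∃ c : ℝ, 0 < c ∧ ∃ x₀ : ℕ, ManyPrimes c x₀ (PrimesIn q A) := by
  refine ⟨⟨fun h => by have := h.1; omega, ⟨le_rfl, fun p hp h => absurd (Nat.dvd_one.1 h) hp.ne_one⟩,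
    fun m n _ => ?_⟩, ?_⟩
  · constructor
    · rintro ⟨h1, h2⟩
      have hm : 1 ≤ m := Nat.pos_of_mul_pos_right h1
      have hn : 1 ≤ n := Nat.pos_of_mul_pos_left h1
      exact ⟨⟨hm, fun p hp h => h2 p hp (dvd_mul_of_dvd_left h _)⟩,
        hn, fun p hp h => h2 p hp (dvd_mul_of_dvd_right h _)⟩
    · rintro ⟨⟨h1, h2⟩, h3, h4⟩
      refine ⟨Nat.mul_pos h1 h3, fun p hp h => ?_⟩
      rcases hp.dvd_or_dvd h with h5 | h5
      · exact h2 p hp h5
      · exact h4 p hp h5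
  · apply many_of hq ha
    intro p hp h1
    refine ⟨hp.one_lt.le, fun p' hp' h2 => ⟨a, haA, ?_⟩⟩
    rw [(Nat.prime_dvd_prime_iff_eq hp' hp).1 h2]
    exact h1

/-- Let `s = 1` or `s = -1`. (A set of integers invariant under `T` and its inverse has a natural density
among the integers of sign `s`.)
(1) THE RELATIVE THEOREM. Let `c > 0`, `x₀` and `ε > 0`. There is `N₀` such that for all `N ≥ N₀`, for all
invariant sets `S` (`δ` their density), for all multiplicative functions `h` with values in `[0, 1]` and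
`∑_{p ≤ x} h p ≥ c x / log x` for `x ≥ x₀`, and for all multiplicative functions `g` with `|g| ≤ h`: the
sum of `g n` over the `n ≤ N` with `s n ∈ S` is `δ ∑_{n ≤ N} g n` up to `ε ∑_{n ≤ N} h n`.
(2) SETS. In particular, for every multiplicative set `E` of positive integers that contains at least
`c x / log x` primes up to `x` for `x ≥ x₀`, the number of the `n ≤ N` in `E` with `s n ∈ S` is `δ` times
the number of all `n ≤ N` in `E`, up to `ε` times this number, for `N ≥ N₀ (c, x₀, ε)`, uniformly in `S`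
and `E` (which can depend on `N`).
(3) DIVERGENCE. If one integer of sign `s` has a divergent trajectory, then in each such set `E` the
divergent trajectories have the same positive relative density `δ`, their density among all integers of
sign `s`. So if in one such set `E` almost all trajectories (even for a sequence of `N` only) are not
divergent, then no integer of sign `s` has a divergent trajectory.
(4) EXAMPLES. The sums of two squares, and the integers composed of primes in given residue classes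
modulo `q` (at least one of them prime to `q`), are such sets `E`. -/
theorem result (s : ℤ) (hs : s = 1 ∨ s = -1) :
    (∀ (c : ℝ), 0 < c → ∀ (x₀ : ℕ) (ε : ℝ), 0 < ε → ∃ N₀ : ℕ, ∀ N : ℕ, N₀ ≤ N →
      ∀ (S : Set ℤ) (δ : ℝ), Invariant S → HasDensity s S δ →
      ∀ h : ArithmeticFunction ℝ, h.IsMultiplicative → (∀ n, 0 ≤ h n ∧ h n ≤ 1) → PrimeMean c x₀ h →
      ∀ g : ArithmeticFunction ℂ, g.IsMultiplicative → (∀ n, ‖g n‖ ≤ h n) →
      ‖∑ n ∈ (Icc 1 N).filter (fun n : ℕ => s * (n : ℤ) ∈ S), g n - δ * ∑ n ∈ Icc 1 N, g n‖ ≤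
        ε * ∑ n ∈ Icc 1 N, h n) ∧
    (∀ (c : ℝ), 0 < c → ∀ (x₀ : ℕ) (ε : ℝ), 0 < ε → ∃ N₀ : ℕ, ∀ N : ℕ, N₀ ≤ N →
      ∀ (S : Set ℤ) (δ : ℝ), Invariant S → HasDensity s S δ →
      ∀ E : Set ℕ, MultSet E → ManyPrimes c x₀ E →
      |(Count s S E N : ℝ) - δ * Count s Set.univ E N| ≤ ε * Count s Set.univ E N) ∧
    ((∃ x : ℤ, 0 < s * x ∧ Divergent x) → ∃ δ : ℝ, 0 < δ ∧ HasDensity s {x | Divergent x} δ ∧
      ∀ (E : Set ℕ) (c : ℝ) (x₀ : ℕ), 0 < c → MultSet E → ManyPrimes c x₀ E →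
      Tendsto (fun N : ℕ => (Count s {x | Divergent x} E N : ℝ) / Count s Set.univ E N) atTop (𝓝 δ)) ∧
    (MultSet TwoSquares ∧ ∃ c : ℝ, 0 < c ∧ ∃ x₀ : ℕ, ManyPrimes c x₀ TwoSquares) ∧
    (∀ (q a : ℕ) (A : Set ℕ), 1 ≤ q → a ∈ A → a.Coprime q → MultSet (PrimesIn q A) ∧
      ∃ c : ℝ, 0 < c ∧ ∃ x₀ : ℕ, ManyPrimes c x₀ (PrimesIn q A)) := by
  refine ⟨fun c hc x₀ ε hε => part1 hs c hc x₀ ε hε, fun c hc x₀ ε hε => part2 hs c hc x₀ ε hε, ?_, two_sq,
    fun q a A hq haA ha => primes_in hq haA ha⟩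
  rintro ⟨x0, hx0, hx0d⟩
  obtain ⟨δ, hδ0, hδ1, hδ⟩ := dens_side odd_one isCoprime_one_left hs (S := {x | Divergent x}) dinv
  have hpos : 0 < δ := Pool.Agent.H499R2.ND.one_pos hs dinv hx0d hx0 hδ
  refine ⟨δ, hpos, HD_ncard hs hδ, fun E c x₀ hc hE hp => ?_⟩
  rw [Metric.tendsto_atTop]
  intro ε hε
  obtain ⟨N0, h0⟩ := part2 hs c hc x₀ (ε / 2) (by positivity)
  refine ⟨N0 + 1, fun N hN => ?_⟩
  have h1 := h0 N (by omega) {x | Divergent x} δ dinv (HD_ncard hs hδ) E hE hp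
  have hpos : (0 : ℝ) < Count s Set.univ E N := by
    have : 0 < Count s Set.univ E N := by
      unfold Count
      rw [Set.ncard_pos ((Set.finite_le_nat N).subset fun p hp => hp.1)]
      exact ⟨1, by omega, hE.2.1, Set.mem_univ _⟩
    exact_mod_cast this
  rw [Real.dist_eq]
  have e : (Count s {x | Divergent x} E N : ℝ) / Count s Set.univ E N - δ =
      ((Count s {x | Divergent x} E N : ℝ) - δ * Count s Set.univ E N) / Count s Set.univ E N := by
    field_simp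
  rw [e, abs_div, abs_of_pos hpos, div_lt_iff₀ hpos]
  refine lt_of_le_of_lt h1 ?_
  exact mul_lt_mul_of_pos_right (by linarith) hpos

end Pool.Agent.Results.MP_ff4775_nt.MultiplicativeSets
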