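import Mathlib
import Pool.Agent.Y780.Cz.Slow

set_option autoImplicit false

/-!
# The parity sequence of a divergent trajectory, its shifts and its neighbours

Two trajectories of the 3x+1 map that have not met at time `N` have parity words of length `N` which
differ in at least `log N / log (log 3 / log 2) - C` places. So the parity sequence of a divergent
trajectory differs from each of its shifts in at least `log N / log (log 3 / log 2) - C` of the first
`N` places. The constant is better for trajectories of slow growth; for a divergent trajectory of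
subexponential growth the number of differences exceeds every multiple of `log N`, and so does the
distance from the words of length `N` of linear complexity.
-/

open Finset Filter

namespace Pool.Agent.Results.MP_ff4775_nt.ParityShifts

/-- The `3x+1` map on the integers. -/
def T (x : ℤ) : ℤ := if x % 2 = 0 then x / 2 else (3 * x + 1) / 2

/-- The trajectory of `x` is divergent: `|T^k x|` tends to infinity. -/
def Divergent (x : ℤ) : Prop := Tendsto (fun k => |T^[k] x|) atTop atTop

/-- The number of `i < N` for which one of `T^i x`, `T^i y` is even and the other one is odd. -/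
def parityDist (x y : ℤ) (N : ℕ) : ℕ :=
  ((Finset.range N).filter fun i => T^[i] x % 2 ≠ T^[i] y % 2).card

/-- The trajectory of `x` grows subexponentially: for every `ρ > 0` there is `c` such that
`|T^k x| ≤ c 2 ^ (ρ k)` for all `k`. -/
def Subexponential (x : ℤ) : Prop :=
  ∀ ρ : ℝ, 0 < ρ → ∃ c : ℝ, ∀ k : ℕ, (|T^[k] x| : ℝ) ≤ c * (2 : ℝ) ^ (ρ * k)

/-- The parity word of length `N` of `x`. -/
def parityWord (x : ℤ) (N : ℕ) : List Bool := (List.range N).map fun i => decide (T^[i] x % 2 = 1)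

/-- The number of different factors (blocks of consecutive letters) of length `n` of a word. -/
def complexity (u : List Bool) (n : ℕ) : ℕ :=
  ((Finset.range (u.length + 1 - n)).image fun i => (u.drop i).take n).card

/-- The number of places in which two words differ. -/
def hammingDistance (u v : List Bool) : ℕ := ((u.zip v).filter fun a => a.1 != a.2).length

lemma T_eq : T = Pool.Agent.Y780.Cz.T 3 1 := by
  funext x; rfl

lemma parityDist_eq (x y : ℤ) (n : ℕ) : parityDist x y n = Pool.Agent.Y780.Cz.dis 3 1 x y n := by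
  unfold parityDist Pool.Agent.Y780.Cz.dis
  rw [Finset.card_filter]
  apply Finset.sum_congr rfl
  intro i _
  rw [T_eq]
  by_cases h : (Pool.Agent.Y780.Cz.T 3 1)^[i] x % 2 = (Pool.Agent.Y780.Cz.T 3 1)^[i] y % 2
  · rw [if_pos h, if_neg (not_not.2 h)]
  · rw [if_neg h, if_pos h]

/-- a divergent trajectory has no repetition -/
lemma no_rep {x : ℤ} (h : Divergent x) : ∀ i j : ℕ, T^[i] x = T^[j] x → i = j := by
  have key : ∀ i r : ℕ, 1 ≤ r → T^[i + r] x ≠ T^[i] x := by
    intro i r hr h1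
    have h2 : ∀ N, T^[i + r * N] x = T^[i] x := by
      intro N
      induction N with
      | zero => rfl
      | succ N ih =>
        rw [show i + r * (N + 1) = r * N + (i + r) by ring, Function.iterate_add_apply, h1,
          ← Function.iterate_add_apply, add_comm, ih]
    obtain ⟨N, hN⟩ := Filter.eventually_atTop.1 (h.eventually_gt_atTop |T^[i] x|)
    have h3 := hN (i + r * N) (by nlinarith)
    rw [h2] at h3
    exact lt_irrefl _ h3
  intro i j he
  rcases lt_trichotomy i j with h1 | h1 | h1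
  · exact absurd (by rw [show i + (j - i) = j by omega]; exact he.symm) (key i (j - i) (by omega))
  · exact h1
  · exact absurd (by rw [show j + (i - j) = i by omega]; exact he) (key j (i - j) (by omega))

/-- the constant `1` -/
lemma const_le : Real.log (Real.logb 2 3 / (Real.logb 2 3 - 1)) ≤ 1 := by
  -- `log_2 3 ≥ 1.583` as `2^1.583 < 3`; it suffices that `log_2 3 ≥ 19/12`
  have h0 : (19 / 12 : ℝ) ≤ Real.logb 2 3 := by
    rw [Real.le_logb_iff_rpow_le (by norm_num) (by norm_num)]
    have h1 : ((2 : ℝ) ^ (19 / 12 : ℝ)) ^ (12 : ℕ) ≤ 3 ^ (12 : ℕ) := by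
      rw [← Real.rpow_natCast, ← Real.rpow_mul (by norm_num)]
      norm_num
    exact le_of_pow_le_pow_left₀ (by norm_num) (by norm_num) h1
  have h1 : Real.logb 2 3 / (Real.logb 2 3 - 1) ≤ 19 / 7 := by
    rw [div_le_div_iff₀ (by linarith) (by norm_num)]
    linarith
  have h2 : (19 / 7 : ℝ) ≤ Real.exp 1 := by
    have := Real.exp_one_gt_d9
    linarith
  rw [Real.log_le_iff_le_exp (div_pos (by linarith) (by linarith))]
  linarith

/-- the first part -/
lemma part1 (x y : ℤ) (N : ℕ) (hN : 1 ≤ N) (hne : T^[N] x ≠ T^[N] y) :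
    Real.log N ≤ parityDist x y N * Real.log (Real.log 3 / Real.log 2) +
      Real.log (2 + Real.log (max |(x : ℝ)| |(y : ℝ)| + 1) / Real.log 2) + 1 := by
  rw [parityDist_eq]
  rw [T_eq] at hne
  set D := Pool.Agent.Y780.Cz.dis 3 1 x y N with hD
  have h1 := Pool.Agent.Y780.Cz.count (q := 3) (k := 1) (by norm_num) le_rfl (by norm_num) D N x y rfl hne
  have e1 : Pool.Agent.Y780.Cz.mx 1 x y = max |(x : ℝ)| |(y : ℝ)| + 1 := by
    unfold Pool.Agent.Y780.Cz.mx; norm_num
  rw [e1] at h1
  set δ : ℝ := Real.logb 2 3 with hδ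
  have e2 : Real.logb 2 ((3 : ℤ) : ℝ) = δ := by rw [hδ]; norm_num
  rw [e2] at h1
  have hδ1 : 1 < δ := by
    rw [hδ, Real.lt_logb_iff_rpow_lt (by norm_num) (by norm_num), Real.rpow_one]; norm_num
  have hδe : Real.log 3 / Real.log 2 = δ := rfl
  have hl2 : 0 < Real.log 2 := Real.log_pos (by norm_num)
  rw [hδe]
  have e3 : Real.logb 2 (max |(x : ℝ)| |(y : ℝ)| + 1) =
    Real.log (max |(x : ℝ)| |(y : ℝ)| + 1) / Real.log 2 := rfl
  rw [e3] at h1
  set u : ℝ := 2 + Real.log (max |(x : ℝ)| |(y : ℝ)| + 1) / Real.log 2 with hu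
  have hu0 : 0 < u := by
    have h2 : 0 ≤ Real.log (max |(x : ℝ)| |(y : ℝ)| + 1) := by
      apply Real.log_nonneg
      have : 0 ≤ max |(x : ℝ)| |(y : ℝ)| := le_max_of_le_left (abs_nonneg _)
      linarith
    rw [hu]; positivity
  have h2 := Pool.Agent.Y780.Cz.geom_le' hδ1 D
  have hN0 : (0 : ℝ) < N := by exact_mod_cast hN
  have h3 : (N : ℝ) ≤ u * (δ / (δ - 1) * δ ^ D) := h1.trans (mul_le_mul_of_nonneg_left h2 hu0.le)
  have h4 := Real.log_le_log hN0 h3
  have h5 : 0 < δ / (δ - 1) := div_pos (by linarith) (by linarith)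
  rw [Real.log_mul hu0.ne' (by positivity), Real.log_mul h5.ne' (by positivity), Real.log_pow] at h4
  linarith [const_le]

/-- large multiples of the logarithm -/
lemma big (K : ℝ) : ∃ ε : ℝ, 0 < ε ∧ ∀ C : ℝ, ∃ N0 : ℕ, ∀ N D : ℕ, N0 ≤ N →
    Real.log N ≤ ε * D + C → K * Real.log N ≤ D := by
  refine ⟨1 / (2 * (|K| + 1)), by positivity, fun C => ?_⟩
  obtain ⟨N0, hN0⟩ := exists_nat_ge (Real.exp (2 * |C|))
  refine ⟨N0, fun N D hN h => ?_⟩
  have h1 : Real.exp (2 * |C|) ≤ N := hN0.trans (by exact_mod_cast hN)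
  have hNp : (0 : ℝ) < N := lt_of_lt_of_le (Real.exp_pos _) h1
  have h2 : 2 * |C| ≤ Real.log N := by
    rw [Real.le_log_iff_exp_le hNp]; exact h1
  have h3 : C ≤ |C| := le_abs_self C
  have h4 : Real.log N / 2 ≤ 1 / (2 * (|K| + 1)) * D := by linarith
  have h5 : (|K| + 1) * Real.log N ≤ D := by
    have h6 : 0 < |K| + 1 := by positivity
    have h7 := mul_le_mul_of_nonneg_left h4 (show 0 ≤ 2 * (|K| + 1) by positivity)
    have e : 2 * (|K| + 1) * (1 / (2 * (|K| + 1)) * (D : ℝ)) = D := by field_simp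
    rw [e] at h7
    linarith
  have h6 : 0 ≤ Real.log N := by
    have := abs_nonneg C
    linarith
  have h7 : K ≤ |K| := le_abs_self K
  nlinarith

/-- the second part -/
lemma part2 (x y : ℤ) (hne : ∀ k, T^[k] x ≠ T^[k] y) (ρ : ℝ) (hρ : 0 < ρ) (c : ℝ)
    (hx : ∀ k : ℕ, (|T^[k] x| : ℝ) ≤ c * (2 : ℝ) ^ (ρ * k))
    (hy : ∀ k : ℕ, (|T^[k] y| : ℝ) ≤ c * (2 : ℝ) ^ (ρ * k)) :
    ∃ C : ℝ, ∀ N : ℕ, 1 ≤ N → Real.log N ≤ parityDist x y N * Real.log (1 + ρ) + C := by
  have hc : 0 ≤ c := by
    have h1 := hx 0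
    have h2 := abs_nonneg ((T^[0] x : ℤ) : ℝ)
    simp only [Nat.cast_zero, mul_zero, Real.rpow_zero, mul_one] at h1
    linarith
  set c0 : ℝ := Real.logb 2 (c + 1) with hc0
  have hc00 : 0 ≤ c0 := Real.logb_nonneg (by norm_num) (by linarith)
  have h := Pool.Agent.Y780.Cz.pair_growth (q := 3) (k := 1) (by norm_num) (by norm_num) (x := x)
    (y := y) hρ hc00 (by
      intro a
      have h1 : Pool.Agent.Y780.Cz.mx 1 ((Pool.Agent.Y780.Cz.T 3 1)^[a] x)
          ((Pool.Agent.Y780.Cz.T 3 1)^[a] y) ≤ (c + 1) * (2 : ℝ) ^ (ρ * a) := by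
        have hp : (1 : ℝ) ≤ (2 : ℝ) ^ (ρ * a) := Real.one_le_rpow (by norm_num) (by positivity)
        unfold Pool.Agent.Y780.Cz.mx
        have h2 := hx a
        have h3 := hy a
        rw [T_eq] at h2 h3
        have h4 := max_le h2 h3
        have e : |((1 : ℤ) : ℝ)| = 1 := by norm_num
        rw [e]
        linarith
      have h2 := Real.logb_le_logb_of_le (b := 2) (by norm_num)
        (lt_of_lt_of_le zero_lt_one (Pool.Agent.Y780.Cz.one_le_mx (by norm_num) _ _)) h1
      rw [Real.logb_mul (by positivity) (by positivity),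
        Real.logb_rpow (by norm_num) (by norm_num)] at h2
      exact h2) (by
      intro a
      have := hne a
      rw [T_eq] at this
      exact this)
  refine ⟨Real.log (1 + ρ) + Real.log ((2 + c0 + ρ) / ρ), fun N hN => ?_⟩
  rw [parityDist_eq]
  exact Pool.Agent.Y780.Cz.log_of_pow hρ (by positivity) hN (h _ N le_rfl)

/-- **Result.** (1) Let `x`, `y` be integers and `N ≥ 1` with `T^N x ≠ T^N y`, and let `D` be the number
of `i < N` for which `T^i x` and `T^i y` have different parities. Then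
`log N ≤ D log (log 3 / log 2) + log (2 + log (max (|x|, |y|) + 1) / log 2) + 1`.
(2) Let the trajectory of `x` be divergent and `r ≥ 1`. For all `N ≥ 1` the number `D` of `i < N` for
which `T^i x` and `T^(i+r) x` have different parities satisfies
`log N ≤ D log (log 3 / log 2) + log (2 + r + log (|x| + 1) / log 2) + 1`.
(3) Let `x`, `y` be integers with `T^k x ≠ T^k y` for all `k`, let `ρ > 0`, and suppose that
`|T^k x|` and `|T^k y|` are at most `c 2 ^ (ρ k)` for all `k`. Then there is `C` such that for all `N ≥ 1`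
the number `D` of (1) satisfies `log N ≤ D log (1 + ρ) + C`.
(4) Let the trajectory of `x` be divergent and of subexponential growth. For every `K` and every
`r ≥ 1` the number of `i < N` for which `T^i x` and `T^(i+r) x` have different parities is at least
`K log N` for all sufficiently large `N`.
(5) Let the trajectory of `x` be divergent and of subexponential growth. For all `K` and `A`, if `N` is
sufficiently large, then the parity word of length `N` of `x` differs in at least `K log N` places from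
every word of length `N` which has at most `A n` factors of each length `n ≥ 1`. -/
theorem result :
    (∀ (x y : ℤ) (N : ℕ), 1 ≤ N → T^[N] x ≠ T^[N] y →
      Real.log N ≤ parityDist x y N * Real.log (Real.log 3 / Real.log 2) +
        Real.log (2 + Real.log (max |(x : ℝ)| |(y : ℝ)| + 1) / Real.log 2) + 1) ∧
    (∀ x : ℤ, Divergent x → ∀ r : ℕ, 1 ≤ r → ∀ N : ℕ, 1 ≤ N →
      Real.log N ≤ parityDist x (T^[r] x) N * Real.log (Real.log 3 / Real.log 2) +
        Real.log (2 + r + Real.log (|(x : ℝ)| + 1) / Real.log 2) + 1) ∧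
    (∀ x y : ℤ, (∀ k, T^[k] x ≠ T^[k] y) → ∀ ρ : ℝ, 0 < ρ → ∀ c : ℝ,
      (∀ k : ℕ, (|T^[k] x| : ℝ) ≤ c * (2 : ℝ) ^ (ρ * k)) →
      (∀ k : ℕ, (|T^[k] y| : ℝ) ≤ c * (2 : ℝ) ^ (ρ * k)) →
      ∃ C : ℝ, ∀ N : ℕ, 1 ≤ N → Real.log N ≤ parityDist x y N * Real.log (1 + ρ) + C) ∧
    (∀ x : ℤ, Divergent x → Subexponential x → ∀ K : ℝ, ∀ r : ℕ, 1 ≤ r → ∃ N0 : ℕ, ∀ N : ℕ, N0 ≤ N →
      K * Real.log N ≤ parityDist x (T^[r] x) N) ∧
    (∀ x : ℤ, Divergent x → Subexponential x → ∀ K A : ℝ, ∃ N0 : ℕ, ∀ N : ℕ, N0 ≤ N →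
      ∀ v : List Bool, v.length = N → (∀ n : ℕ, 1 ≤ n → (complexity v n : ℝ) ≤ A * n) →
      K * Real.log N ≤ hammingDistance (parityWord x N) v) := by
  have hshift : ∀ x : ℤ, Divergent x → ∀ r : ℕ, 1 ≤ r → ∀ k, T^[k] x ≠ T^[k] (T^[r] x) := by
    intro x hx r hr k he
    rw [← Function.iterate_add_apply] at he
    have := no_rep hx _ _ he
    omega
  refine ⟨part1, fun x hx r hr N hN => ?_, part2, fun x hx hs K r hr => ?_, fun x hx hs K A => ?_⟩
  · have h1 := part1 x (T^[r] x) N hN (hshift x hx r hr N)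
    have hl2 : 0 < Real.log 2 := Real.log_pos (by norm_num)
    have h2 : Real.log (max |(x : ℝ)| |((T^[r] x : ℤ) : ℝ)| + 1) / Real.log 2 ≤
        r + Real.log (|(x : ℝ)| + 1) / Real.log 2 := by
      have h3 : max |(x : ℝ)| |((T^[r] x : ℤ) : ℝ)| + 1 ≤ 2 ^ r * (|(x : ℝ)| + 1) := by
        have h4 := Pool.Agent.Y780.Cz.mx_iter_le (q := 3) (k := 1) (by norm_num) le_rfl
          (by norm_num) r x x
        unfold Pool.Agent.Y780.Cz.mx at h4
        rw [max_self, max_self] at h4
        rw [← T_eq] at h4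
        have e : |((1 : ℤ) : ℝ)| = 1 := by norm_num
        rw [e] at h4
        have h5 : (((3 : ℤ) : ℝ) / 2) ^ r ≤ 2 ^ r := pow_le_pow_left₀ (by norm_num) (by norm_num) r
        have h6 : (1 : ℝ) ≤ 2 ^ r := one_le_pow₀ (by norm_num)
        have hx0 := abs_nonneg (x : ℝ)
        have h7 : |((T^[r] x : ℤ) : ℝ)| + 1 ≤ 2 ^ r * (|(x : ℝ)| + 1) :=
          h4.trans (mul_le_mul_of_nonneg_right h5 (by positivity))
        have h8 : |(x : ℝ)| + 1 ≤ 2 ^ r * (|(x : ℝ)| + 1) := by nlinarith
        rcases max_choice |(x : ℝ)| |((T^[r] x : ℤ) : ℝ)| with h | h <;> rw [h]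
        · exact h8
        · exact h7
      have hm0 : 0 < max |(x : ℝ)| |((T^[r] x : ℤ) : ℝ)| + 1 := by
        have : 0 ≤ max |(x : ℝ)| |((T^[r] x : ℤ) : ℝ)| := le_max_of_le_left (abs_nonneg _)
        linarith
      have h9 := Real.log_le_log hm0 h3
      have hx0 := abs_nonneg (x : ℝ)
      rw [Real.log_mul (by positivity) (by linarith), Real.log_pow] at h9
      have e2 : (r : ℝ) + Real.log (|(x : ℝ)| + 1) / Real.log 2 =
          (r * Real.log 2 + Real.log (|(x : ℝ)| + 1)) / Real.log 2 := by field_simp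
      rw [e2]
      exact div_le_div_of_nonneg_right h9 hl2.le
    have h3 : Real.log (2 + Real.log (max |(x : ℝ)| |((T^[r] x : ℤ) : ℝ)| + 1) / Real.log 2) ≤
        Real.log (2 + r + Real.log (|(x : ℝ)| + 1) / Real.log 2) := by
      apply Real.log_le_log _ (by linarith)
      have h4 : 0 ≤ Real.log (max |(x : ℝ)| |((T^[r] x : ℤ) : ℝ)| + 1) := by
        apply Real.log_nonneg
        have : 0 ≤ max |(x : ℝ)| |((T^[r] x : ℤ) : ℝ)| := le_max_of_le_left (abs_nonneg _)
        linarith
      positivity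
    linarith
  · obtain ⟨ε, hε, hbig⟩ := big K
    obtain ⟨c, hc⟩ := hs ε hε
    have hc0 : 0 ≤ c := by
      have h1 := hc 0
      have h2 := abs_nonneg ((T^[0] x : ℤ) : ℝ)
      simp only [Nat.cast_zero, mul_zero, Real.rpow_zero, mul_one] at h1
      linarith
    have hr0 : (1 : ℝ) ≤ (2 : ℝ) ^ (ε * r) := Real.one_le_rpow (by norm_num) (by positivity)
    obtain ⟨C, hC⟩ := part2 x (T^[r] x) (hshift x hx r hr) ε hε (c * (2 : ℝ) ^ (ε * r))
      (fun k => (hc k).trans (by
        apply mul_le_mul_of_nonneg_right _ (by positivity)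
        nlinarith)) (fun k => by
        rw [← Function.iterate_add_apply]
        refine (hc (k + r)).trans (le_of_eq ?_)
        rw [mul_assoc, ← Real.rpow_add (by norm_num)]
        push_cast
        ring_nf)
    obtain ⟨N0, hN0⟩ := hbig C
    refine ⟨max N0 1, fun N hN => ?_⟩
    apply hN0 N _ (le_trans (le_max_left _ _) hN)
    refine (hC N (le_trans (le_max_right _ _) hN)).trans ?_
    have h1 : Real.log (1 + ε) ≤ ε := by
      have := Real.log_le_sub_one_of_pos (show 0 < 1 + ε by linarith)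
      linarith
    have h2 : (0 : ℝ) ≤ parityDist x (T^[r] x) N := Nat.cast_nonneg _
    nlinarith
  · obtain ⟨ε, hε, hbig⟩ := big K
    obtain ⟨K1, hK1, hpiece⟩ := Pool.Agent.Y780.Cz.piece2 (q := 3) (by norm_num) le_rfl (max A 1)
    have hK1r : (1 : ℝ) ≤ K1 := by exact_mod_cast hK1
    set ρ : ℝ := ε / (4 * K1) with hρ
    have hρ0 : 0 < ρ := by rw [hρ]; positivity
    obtain ⟨c, hc⟩ := hs ρ hρ0
    have hc0 : 0 ≤ c := by
      have h1 := hc 0
      have h2 := abs_nonneg ((T^[0] x : ℤ) : ℝ)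
      simp only [Nat.cast_zero, mul_zero, Real.rpow_zero, mul_one] at h1
      linarith
    set c0 : ℝ := Real.logb 2 (c + 1) with hc0'
    have hc00 : 0 ≤ c0 := Real.logb_nonneg (by norm_num) (by linarith)
    have hht : ∀ a : ℕ, Pool.Agent.Y780.Cz.ht 1 ((Pool.Agent.Y780.Cz.T 3 1)^[a] x) ≤ c0 + ρ * a := by
      intro a
      unfold Pool.Agent.Y780.Cz.ht
      have hp : (1 : ℝ) ≤ (2 : ℝ) ^ (ρ * a) := Real.one_le_rpow (by norm_num) (by positivity)
      have h2 := hc a
      rw [T_eq] at h2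
      have e : |((1 : ℤ) : ℝ)| = 1 := by norm_num
      rw [e]
      have h3 : |(((Pool.Agent.Y780.Cz.T 3 1)^[a] x : ℤ) : ℝ)| + 1 ≤ (c + 1) * (2 : ℝ) ^ (ρ * a) := by
        linarith
      have h4 := Real.logb_le_logb_of_le (b := 2) (by norm_num) (by
        have := abs_nonneg (((Pool.Agent.Y780.Cz.T 3 1)^[a] x : ℤ) : ℝ)
        linarith) h3
      rw [Real.logb_mul (by positivity) (by positivity),
        Real.logb_rpow (by norm_num) (by norm_num)] at h4
      exact h4
    set s0 : ℝ := (1 + c0) / ρ with hs0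
    have hs00 : 0 < s0 := by rw [hs0]; positivity
    have hinj : ∀ i j : ℕ, (Pool.Agent.Y780.Cz.T 3 1)^[i] x = (Pool.Agent.Y780.Cz.T 3 1)^[j] x →
        i = j := by
      intro i j he
      rw [← T_eq] at he
      exact no_rep hx i j he
    have hgr := Pool.Agent.Y780.Cz.pieces_growth (q := 3) (k := 1) (x := x) (a0 := 2 * K1 * ρ)
      (s0 := s0) (by positivity)
      (fun u => ∀ n, 1 ≤ n → (Pool.Agent.Y780.Cz.cpl u n : ℝ) ≤ max A 1 * n)
      (by
        intro a L hl hi
        have h1 := hpiece 1 (by norm_num) ((Pool.Agent.Y780.Cz.T 3 1)^[a] x) 1 L le_rfl hl hi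
        refine h1.trans ?_
        have h2 := hht a
        have e : 2 * (K1 : ℝ) * ρ * (a + s0) = 2 * K1 * (1 + (c0 + ρ * a)) := by
          rw [hs0]; field_simp; ring
        rw [e]
        apply mul_le_mul_of_nonneg_left _ (by positivity)
        push_cast
        linarith) hinj
    obtain ⟨N0, hN0⟩ := hbig (Real.log s0 + ε)
    refine ⟨max N0 1, fun N hN v hv hlow => ?_⟩
    have hN1 : 1 ≤ N := le_trans (le_max_right _ _) hN
    have hNp : (0 : ℝ) < N := by exact_mod_cast hN1
    have hpar : parityWord x N = Pool.Agent.Y780.Cz.par 3 1 x N := by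
      unfold parityWord Pool.Agent.Y780.Cz.par
      rw [T_eq]
    apply hN0 N _ (le_trans (le_max_left _ _) hN)
    rw [hpar]
    change _ ≤ ε * (Pool.Agent.Y780.Cz.ham (Pool.Agent.Y780.Cz.par 3 1 x N) v : ℝ) + _
    obtain ⟨W, h1, h2, h3⟩ := Pool.Agent.Y780.Cz.ham_pieces (A := max A 1) (M := 1)
      (le_max_right _ _) le_rfl (Pool.Agent.Y780.Cz.par 3 1 x N) v
      (by rw [Pool.Agent.Y780.Cz.par_length, hv]) (fun n hn => (hlow n hn).trans (by
        gcongr; exact le_max_left _ _))
    have h4 := hgr W 0 N (by rw [h1]; rfl) h3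
    push_cast at h4
    set D := Pool.Agent.Y780.Cz.ham (Pool.Agent.Y780.Cz.par 3 1 x N) v with hD
    have h5 : (N : ℝ) ≤ (1 + 2 * K1 * ρ) ^ W.length * s0 := by
      rw [add_zero, zero_add] at h4
      linarith
    have h6 := Real.log_le_log hNp h5
    rw [Real.log_mul (by positivity) hs00.ne', Real.log_pow] at h6
    have h7 : Real.log (1 + 2 * K1 * ρ) ≤ ε / 2 := by
      have h8 := Real.log_le_sub_one_of_pos (show 0 < 1 + 2 * (K1 : ℝ) * ρ by positivity)
      have e : 2 * (K1 : ℝ) * ρ = ε / 2 := by rw [hρ]; field_simp; ring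
      rw [e] at h8 ⊢
      linarith
    have h9 : (W.length : ℝ) ≤ 2 * D + 1 := by exact_mod_cast h2
    have h10 : (W.length : ℝ) * Real.log (1 + 2 * K1 * ρ) ≤ (2 * D + 1) * (ε / 2) := by
      have h11 : 0 ≤ Real.log (1 + 2 * (K1 : ℝ) * ρ) := Real.log_nonneg (by
        have : 0 < 2 * (K1 : ℝ) * ρ := by positivity
        linarith)
      exact mul_le_mul h9 h7 h11 (by positivity)
    linarith

end Pool.Agent.Results.MP_ff4775_nt.ParityShifts
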